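import Mathlib

/-!
# The equations `1/w + 1/x + 1/y + 1/z + k/(wxyz) = 0` for all integers `k`

Apart from two explicit families every solution in nonzero integers is bounded in terms of any
single one of its entries: with `q = |w| (|w| + 1)` the absolute values of the other entries are
at most `q ^ 2 + q + |k|`. This bound is attained for every `k` and every value of `|w|`, and the
solutions which attain it are determined. The case `k = 1` is Mordell's equation. Adapted from the
library module `R_seed8/Results/MP_d45172_nt/SharpBoundOutsideFamily` (the case `k = 1`).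
-/

namespace Pool.Agent.Results.MP_d45172_nt.AllNumerators

/-- The core inequality, for the absolute values `A ≤ B ≤ C ≤ E` of the four entries, where
`s = |a + b|` and `δ = |ab + ac + bc|`. -/
lemma core (K A B C E δ s : ℤ) (hK : 0 ≤ K) (hA : 1 ≤ A) (hAB : A ≤ B) (hBC : B ≤ C)
    (hδ : 1 ≤ δ) (hs : 1 ≤ s) (h1 : E * δ ≤ K + A * B * C)
    (h2 : s * C ≤ δ + A * B) (h3 : s = A + B ∨ s = B - A) :
    E ≤ (A * (A + 1)) ^ 2 + A * (A + 1) + K := by
  have hB : 1 ≤ B := le_trans hA hAB
  have hC : 1 ≤ C := le_trans hB hBC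
  have hq : A ≤ A * (A + 1) := by nlinarith
  have hq2 : A * (A + 1) ≤ (A * (A + 1)) ^ 2 := by nlinarith
  rcases le_or_gt E 0 with hE | hE
  · have : 0 ≤ (A * (A + 1)) ^ 2 := sq_nonneg _
    linarith
  have hmain : s * (E * δ) ≤ s * K + A * B * (δ + A * B) := by
    have hAB0 : 0 ≤ A * B := by positivity
    calc s * (E * δ) ≤ s * (K + A * B * C) := mul_le_mul_of_nonneg_left h1 (by linarith)
      _ = s * K + A * B * (s * C) := by ring
      _ ≤ s * K + A * B * (δ + A * B) := by
          have := mul_le_mul_of_nonneg_left h2 hAB0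
          linarith
  rcases h3 with h3 | h3
  · -- same sign
    have hBC1 : 1 ≤ B * C := by nlinarith
    have hδ2 : B * C ≤ δ := by
      have h4 : A * B ≤ A * C := mul_le_mul_of_nonneg_left hBC (by linarith)
      rw [h3] at h2
      nlinarith
    have h5 : E * (B * C) ≤ E * δ := mul_le_mul_of_nonneg_left hδ2 hE.le
    have h6 : K ≤ K * (B * C) := by nlinarith
    have h7 : E * (B * C) ≤ (K + A) * (B * C) := by nlinarith
    have h8 : E ≤ K + A := le_of_mul_le_mul_right h7 (by linarith)
    linarith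
  · -- opposite sign
    have hBs : B = A + s := by linarith
    subst hBs
    have hK1 : s * K ≤ s * K * δ := by
      have : 0 ≤ s * K := mul_nonneg (by linarith) hK
      nlinarith
    rcases le_or_gt s A with hsA | hsA
    · set P := A * (A + s) with hP
      have hP0 : 0 ≤ P := by positivity
      have h6 : s * K + P * (δ + P) ≤ (s * K + P + P ^ 2) * δ := by
        have : P ^ 2 ≤ P ^ 2 * δ := by nlinarith [sq_nonneg P]
        nlinarith
      have h7 : s * E ≤ s * K + P + P ^ 2 := by
        have : (s * E) * δ ≤ (s * K + P + P ^ 2) * δ := by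
          calc (s * E) * δ = s * (E * δ) := by ring
            _ ≤ _ := le_trans hmain h6
        exact le_of_mul_le_mul_right this (by linarith)
      have h8 : P + P ^ 2 ≤ s * (A * (A + 1) + (A * (A + 1)) ^ 2) := by
        have h9 : s * (A * (A + 1) + (A * (A + 1)) ^ 2) - (P + P ^ 2)
            = A ^ 2 * ((s - 1) * (A ^ 2 - s + 1)) := by
          rw [hP]; ring
        have h10 : 0 ≤ (s - 1) * (A ^ 2 - s + 1) := by
          apply mul_nonneg (by linarith)
          nlinarith
        have h11 : 0 ≤ A ^ 2 * ((s - 1) * (A ^ 2 - s + 1)) := mul_nonneg (sq_nonneg A) h10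
        linarith
      have h12 : s * E ≤ s * ((A * (A + 1)) ^ 2 + A * (A + 1) + K) := by
        have : s * ((A * (A + 1)) ^ 2 + A * (A + 1) + K)
            = s * K + s * (A * (A + 1) + (A * (A + 1)) ^ 2) := by ring
        linarith
      exact le_of_mul_le_mul_left h12 (by linarith)
    · have hsA' : A + 1 ≤ s := hsA
      have hsB : s * (A + s) ≤ δ + A * (A + s) :=
        le_trans (mul_le_mul_of_nonneg_left hBC (by linarith)) h2
      have hδB : A + s ≤ δ := by nlinarith
      have h5 : A * (A + s) * (A * (A + s)) ≤ A ^ 2 * (A + s) * δ := by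
        have : A ^ 2 * (A + s) * (A + s) ≤ A ^ 2 * (A + s) * δ :=
          mul_le_mul_of_nonneg_left hδB (by positivity)
        nlinarith
      have h6 : s * (E * δ) ≤ (s * K + A * (A + s) + A ^ 2 * (A + s)) * δ := by
        nlinarith
      have h7 : s * E ≤ s * K + A * (A + s) + A ^ 2 * (A + s) := by
        have : (s * E) * δ ≤ (s * K + A * (A + s) + A ^ 2 * (A + s)) * δ := by
          calc (s * E) * δ = s * (E * δ) := by ring
            _ ≤ _ := h6
        exact le_of_mul_le_mul_right this (by linarith)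
      have h8 : A * (A + s) ≤ 2 * A * s := by nlinarith
      have h9 : A ^ 2 * (A + s) ≤ 2 * A ^ 2 * s := by nlinarith [sq_nonneg A]
      have h10 : s * E ≤ s * (K + 2 * A + 2 * A ^ 2) := by nlinarith
      have h11 : E ≤ K + 2 * A + 2 * A ^ 2 := le_of_mul_le_mul_left h10 (by linarith)
      have h12 : 2 * A + 2 * A ^ 2 = A * (A + 1) + A * (A + 1) := by ring
      linarith

/-- The case of equality in `core`. -/
lemma core_eq (K A B C E δ s : ℤ) (hK : 0 ≤ K) (hA : 1 ≤ A) (hAB : A ≤ B) (hBC : B ≤ C)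
    (hδ : 1 ≤ δ) (hs : 1 ≤ s) (h1 : E * δ ≤ K + A * B * C)
    (h2 : s * C ≤ δ + A * B) (h3 : s = A + B ∨ s = B - A)
    (hE : E = (A * (A + 1)) ^ 2 + A * (A + 1) + K) :
    s = 1 ∧ B = A + 1 ∧ δ = 1 ∧ C = A * (A + 1) + 1 := by
  have hB : 1 ≤ B := le_trans hA hAB
  have hC : 1 ≤ C := le_trans hB hBC
  have hq : A + 1 ≤ A * (A + 1) := by nlinarith
  have hq0 : 2 ≤ A * (A + 1) := by linarith
  have hq2 : 2 * (A * (A + 1)) ≤ (A * (A + 1)) ^ 2 := by nlinarith
  have hE0 : 0 < E := by linarith
  have hmain : s * (E * δ) ≤ s * K + A * B * (δ + A * B) := by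
    have hAB0 : 0 ≤ A * B := by positivity
    calc s * (E * δ) ≤ s * (K + A * B * C) := mul_le_mul_of_nonneg_left h1 (by linarith)
      _ = s * K + A * B * (s * C) := by ring
      _ ≤ s * K + A * B * (δ + A * B) := by
          have := mul_le_mul_of_nonneg_left h2 hAB0
          linarith
  rcases h3 with h3 | h3
  · -- same sign
    exfalso
    have hBC1 : 1 ≤ B * C := by nlinarith
    have hδ2 : B * C ≤ δ := by
      have h4 : A * B ≤ A * C := mul_le_mul_of_nonneg_left hBC (by linarith)
      rw [h3] at h2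
      nlinarith
    have h5 : E * (B * C) ≤ E * δ := mul_le_mul_of_nonneg_left hδ2 hE0.le
    have h6 : K ≤ K * (B * C) := by nlinarith
    have h7 : E * (B * C) ≤ (K + A) * (B * C) := by nlinarith
    have h8 : E ≤ K + A := le_of_mul_le_mul_right h7 (by linarith)
    linarith
  · -- opposite sign
    have hBs : B = A + s := by linarith
    subst hBs
    have hK1 : s * K ≤ s * K * δ := by
      have : 0 ≤ s * K := mul_nonneg (by linarith) hK
      nlinarith
    rcases le_or_gt s A with hsA | hsA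
    · have hs1 : s = 1 := by
        set P := A * (A + s) with hP
        have hP0 : 0 ≤ P := by positivity
        have h6 : s * K + P * (δ + P) ≤ (s * K + P + P ^ 2) * δ := by
          have : P ^ 2 ≤ P ^ 2 * δ := by nlinarith [sq_nonneg P]
          nlinarith
        have h7 : s * E ≤ s * K + P + P ^ 2 := by
          have : (s * E) * δ ≤ (s * K + P + P ^ 2) * δ := by
            calc (s * E) * δ = s * (E * δ) := by ring
              _ ≤ _ := le_trans hmain h6
          exact le_of_mul_le_mul_right this (by linarith)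
        have h9 : s * (A * (A + 1) + (A * (A + 1)) ^ 2) - (P + P ^ 2)
            = A ^ 2 * ((s - 1) * (A ^ 2 - s + 1)) := by
          rw [hP]; ring
        have h10 : A ^ 2 * ((s - 1) * (A ^ 2 - s + 1)) ≤ 0 := by
          rw [← h9]
          rw [hE] at h7
          linarith
        have hA2 : 0 < A ^ 2 := by positivity
        have h11 : (s - 1) * (A ^ 2 - s + 1) ≤ 0 := by
          by_contra hcon
          push Not at hcon
          have := mul_pos hA2 hcon
          linarith
        have h12 : 1 ≤ A ^ 2 - s + 1 := by nlinarith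
        by_contra hne
        have h13 : 1 ≤ s - 1 := by omega
        nlinarith
      subst hs1
      have h4 : (A * (A + 1)) ^ 2 * (δ - 1) + K * (δ - 1) ≤ 0 := by
        rw [hE] at hmain
        nlinarith
      have hδ1 : δ = 1 := by
        by_contra hne
        have h5 : 1 ≤ δ - 1 := by omega
        have h6 : 0 ≤ K * (δ - 1) := mul_nonneg hK (by linarith)
        have h7 : 0 < (A * (A + 1)) ^ 2 := by positivity
        have h8 : 0 < (A * (A + 1)) ^ 2 * (δ - 1) := mul_pos h7 (by linarith)
        linarith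
      subst hδ1
      have h5 : C ≤ A * (A + 1) + 1 := by linarith
      have h6 : A * (A + 1) * (A * (A + 1) + 1) ≤ A * (A + 1) * C := by
        rw [hE] at h1
        nlinarith
      have h7 : A * (A + 1) + 1 ≤ C := le_of_mul_le_mul_left h6 (by linarith)
      exact ⟨rfl, rfl, rfl, le_antisymm h5 h7⟩
    · exfalso
      have hsA' : A + 1 ≤ s := hsA
      have hsB : s * (A + s) ≤ δ + A * (A + s) :=
        le_trans (mul_le_mul_of_nonneg_left hBC (by linarith)) h2
      have hδB : A + s ≤ δ := by nlinarith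
      have h5 : A * (A + s) * (A * (A + s)) ≤ A ^ 2 * (A + s) * δ := by
        have : A ^ 2 * (A + s) * (A + s) ≤ A ^ 2 * (A + s) * δ :=
          mul_le_mul_of_nonneg_left hδB (by positivity)
        nlinarith
      have h6 : s * (E * δ) ≤ (s * K + A * (A + s) + A ^ 2 * (A + s)) * δ := by
        nlinarith
      have h7 : s * E ≤ s * K + A * (A + s) + A ^ 2 * (A + s) := by
        have : (s * E) * δ ≤ (s * K + A * (A + s) + A ^ 2 * (A + s)) * δ := by
          calc (s * E) * δ = s * (E * δ) := by ring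
            _ ≤ _ := h6
        exact le_of_mul_le_mul_right this (by linarith)
      have h8 : A * (A + s) ≤ 2 * A * s - A := by nlinarith
      have h9 : A ^ 2 * (A + s) ≤ 2 * A ^ 2 * s - A ^ 2 := by nlinarith [sq_nonneg A]
      have h10 : s * E < s * (K + 2 * A + 2 * A ^ 2) := by nlinarith
      have h11 : E < K + 2 * A + 2 * A ^ 2 := lt_of_mul_lt_mul_left h10 (by linarith)
      have h12 : 2 * A + 2 * A ^ 2 = 2 * (A * (A + 1)) := by ring
      linarith

/-- The third elementary symmetric function of four integers. -/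
lemma esymm_three_list (a b c d : ℤ) :
    (([a, b, c, d] : List ℤ) : Multiset ℤ).esymm 3 =
      b * c * d + a * c * d + a * b * d + a * b * c := by
  have e0 : ∀ s : Multiset ℤ, s.esymm 0 = 1 := fun s => by simp [Multiset.esymm]
  have ec : ∀ (a : ℤ) (s : Multiset ℤ) (k : ℕ),
      (a ::ₘ s).esymm (k + 1) = s.esymm (k + 1) + a * s.esymm k := fun a s k => by
    simp [Multiset.esymm, Multiset.powersetCard_cons, Multiset.map_map, Multiset.sum_map_mul_left]
  have ez : ∀ k : ℕ, (0 : Multiset ℤ).esymm (k + 1) = 0 := fun k => by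
    simp [Multiset.esymm]
  have h : (([a, b, c, d] : List ℤ) : Multiset ℤ) = a ::ₘ b ::ₘ c ::ₘ d ::ₘ 0 := rfl
  rw [h]
  simp only [ec, e0, ez]
  ring

/-- `w, x, y, z` solve the equation `1/w + 1/x + 1/y + 1/z + k/(wxyz) = 0`. -/
def IsSolution (k w x y z : ℤ) : Prop :=
  1 / (w : ℚ) + 1 / (x : ℚ) + 1 / (y : ℚ) + 1 / (z : ℚ) + (k : ℚ) / ((w : ℚ) * x * y * z) = 0

/-- The bound `q ^ 2 + q + |k|` with `q = m (m + 1)`. -/
def bound (k m : ℤ) : ℤ := (m * (m + 1)) ^ 2 + m * (m + 1) + |k|

lemma bound_mono (k : ℤ) {a b : ℤ} (ha : 0 ≤ a) (hab : a ≤ b) : bound k a ≤ bound k b := by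
  unfold bound
  have h : a * (a + 1) ≤ b * (b + 1) := by nlinarith
  have h0 : 0 ≤ a * (a + 1) := by positivity
  have h2 : (a * (a + 1)) ^ 2 ≤ (b * (b + 1)) ^ 2 := pow_le_pow_left₀ h0 h 2
  linarith

/-- `(w, x, y, z)` is a permutation of `(u, -u, t, j - t)` with `k = u ^ 2 j`. -/
def FamilyOne (k w x y z : ℤ) : Prop :=
  ∃ u j t : ℤ, k = u ^ 2 * j ∧ List.Perm [w, x, y, z] [u, -u, t, j - t]

/-- `(w, x, y, z)` is a permutation of `(g r (r + s), g s (r + s), - g r s, t)` with
`k = g ^ 3 (r s (r + s)) ^ 2`. -/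
def FamilyTwo (k w x y z : ℤ) : Prop :=
  ∃ g r s t : ℤ, k = g ^ 3 * (r * s * (r + s)) ^ 2 ∧
    List.Perm [w, x, y, z] [g * r * (r + s), g * s * (r + s), -(g * r * s), t]

/-- The solutions of `1/a + 1/b + 1/c = 0`. -/
lemma param (a b c k : ℤ) (ha : a ≠ 0) (hb : b ≠ 0) (h0 : a * b + a * c + b * c = 0)
    (h1 : a * b * c = -k) :
    ∃ g r s : ℤ, k = g ^ 3 * (r * s * (r + s)) ^ 2 ∧ a = g * r * (r + s) ∧
      b = g * s * (r + s) ∧ c = -(g * r * s) := by
  have hg : 0 < Int.gcd a b := Int.gcd_pos_of_ne_zero_left _ ha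
  obtain ⟨r, s, hrs, har, hbs⟩ := Int.exists_gcd_one hg
  set n : ℤ := (Int.gcd a b : ℤ) with hn
  have hn0 : n ≠ 0 := by
    rw [hn]; exact_mod_cast hg.ne'
  have hco : IsCoprime r s := Int.isCoprime_iff_gcd_eq_one.mpr hrs
  have hr : r ≠ 0 := by rintro rfl; exact ha (by rw [har]; ring)
  have hs : s ≠ 0 := by rintro rfl; exact hb (by rw [hbs]; ring)
  have h2 : n * (r * s) + c * (r + s) = 0 := by
    have : n * (n * (r * s) + c * (r + s)) = 0 := by
      rw [har, hbs] at h0
      linear_combination h0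
    exact (mul_eq_zero.mp this).resolve_left hn0
  have hrs0 : r + s ≠ 0 := by
    intro h
    rw [h] at h2
    have : n * (r * s) = 0 := by linarith
    rcases mul_eq_zero.mp this with h | h
    · exact hn0 h
    · rcases mul_eq_zero.mp h with h | h
      · exact hr h
      · exact hs h
  have hc1 : IsCoprime (r + s) r := by
    have := (IsCoprime.add_mul_left_right hco.symm 1 : IsCoprime s (r + s * 1))
    obtain ⟨u, v, huv⟩ := hco
    exact ⟨v, u - v, by linear_combination huv⟩
  have hc2 : IsCoprime (r + s) s := by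
    obtain ⟨u, v, huv⟩ := hco
    exact ⟨u, v - u, by linear_combination huv⟩
  have hdvd : (r + s) ∣ n := by
    have h3 : (r + s) ∣ n * (r * s) := ⟨-c, by linear_combination h2⟩
    exact (IsCoprime.mul_right hc1 hc2).dvd_of_dvd_mul_right h3
  obtain ⟨g, hg'⟩ := hdvd
  have hc : c = -(g * r * s) := by
    have : (r + s) * (c + g * r * s) = 0 := by
      rw [hg'] at h2
      linear_combination h2
    have := (mul_eq_zero.mp this).resolve_left hrs0
    linarith
  have ha' : a = g * r * (r + s) := by rw [har, hg']; ring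
  have hb' : b = g * s * (r + s) := by rw [hbs, hg']; ring
  refine ⟨g, r, s, ?_, ha', hb', hc⟩
  have : k = -(a * b * c) := by linarith
  rw [this, ha', hb', hc]
  ring

/-- The sorted case. -/
lemma sorted_case (k a b c d : ℤ) (ha : a ≠ 0) (hb0 : b ≠ 0) (hab : |a| ≤ |b|) (hbc : |b| ≤ |c|)
    (h : b * c * d + a * c * d + a * b * d + a * b * c = -k) :
    FamilyOne k a b c d ∨ FamilyTwo k a b c d ∨ |d| ≤ bound k |a| := by
  have hA : 1 ≤ |a| := Int.one_le_abs ha
  by_cases hs : a + b = 0
  · left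
    have hb : b = -a := by linarith
    subst hb
    refine ⟨a, c + d, c, by linear_combination h, ?_⟩
    have : c + d - c = d := by ring
    rw [this]
  · right
    by_cases hD : a * b + a * c + b * c = 0
    · left
      have h1 : a * b * c = -k := by linear_combination h - d * hD
      obtain ⟨g, r, s, hk, h2, h3, h4⟩ := param a b c k ha hb0 hD h1
      refine ⟨g, r, s, d, hk, ?_⟩
      rw [← h2, ← h3, ← h4]
    right
    have hs1 : 1 ≤ |a + b| := Int.one_le_abs hs
    have hδ : 1 ≤ |a * b + a * c + b * c| := Int.one_le_abs hD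
    have h1 : |d| * |a * b + a * c + b * c| ≤ |k| + |a| * |b| * |c| := by
      rw [← abs_mul]
      have : d * (a * b + a * c + b * c) = -(k + a * b * c) := by linear_combination h
      rw [this, abs_neg]
      calc |k + a * b * c| ≤ |k| + |a * b * c| := abs_add_le _ _
        _ = |k| + |a| * |b| * |c| := by rw [abs_mul, abs_mul]
    have h2 : |a + b| * |c| ≤ |a * b + a * c + b * c| + |a| * |b| := by
      rw [← abs_mul, ← abs_mul]
      have : (a + b) * c = (a * b + a * c + b * c) + -(a * b) := by ring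
      rw [this]
      calc |(a * b + a * c + b * c) + -(a * b)|
          ≤ |a * b + a * c + b * c| + |-(a * b)| := abs_add_le _ _
        _ = _ := by rw [abs_neg]
    have h3 : |a + b| = |a| + |b| ∨ |a + b| = |b| - |a| := by
      rcases abs_cases a with ⟨h1, h1'⟩ | ⟨h1, h1'⟩ <;>
      rcases abs_cases b with ⟨h2, h2'⟩ | ⟨h2, h2'⟩ <;>
      rcases abs_cases (a + b) with ⟨h3, h3'⟩ | ⟨h3, h3'⟩ <;>
      rw [h1, h2] at hab <;> rw [h1, h2, h3] <;> omega
    exact core |k| |a| |b| |c| |d| _ _ (abs_nonneg k) hA hab hbc hδ hs1 h1 h2 h3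

/-- The sorted case, when the bound is attained. -/
lemma sorted_eq (k a b c d : ℤ) (ha : a ≠ 0) (hb0 : b ≠ 0) (hab : |a| ≤ |b|) (hbc : |b| ≤ |c|)
    (h : b * c * d + a * c * d + a * b * d + a * b * c = -k) (hF : ¬ FamilyOne k a b c d)
    (hG : ¬ FamilyTwo k a b c d) (hd : |d| = bound k |a|) :
    ∃ e : ℤ, (e = 1 ∨ e = -1) ∧ 0 ≤ e * k ∧ a = e * |a| ∧ b = -e * (|a| + 1) ∧
      c = -e * (|a| * (|a| + 1) + 1) ∧ d = -e * bound k |a| := by
  have hA : 1 ≤ |a| := Int.one_le_abs ha
  have hs : a + b ≠ 0 := by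
    intro hs
    apply hF
    have hb : b = -a := by linarith
    subst hb
    refine ⟨a, c + d, c, by linear_combination h, ?_⟩
    have : c + d - c = d := by ring
    rw [this]
  have hD : a * b + a * c + b * c ≠ 0 := by
    intro hD
    apply hG
    have h1 : a * b * c = -k := by linear_combination h - d * hD
    obtain ⟨g, r, s, hk, h2, h3, h4⟩ := param a b c k ha hb0 hD h1
    refine ⟨g, r, s, d, hk, ?_⟩
    rw [← h2, ← h3, ← h4]
  have hs1 : 1 ≤ |a + b| := Int.one_le_abs hs
  have hδ : 1 ≤ |a * b + a * c + b * c| := Int.one_le_abs hD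
  have h1 : |d| * |a * b + a * c + b * c| ≤ |k| + |a| * |b| * |c| := by
    rw [← abs_mul]
    have : d * (a * b + a * c + b * c) = -(k + a * b * c) := by linear_combination h
    rw [this, abs_neg]
    calc |k + a * b * c| ≤ |k| + |a * b * c| := abs_add_le _ _
      _ = |k| + |a| * |b| * |c| := by rw [abs_mul, abs_mul]
  have h2 : |a + b| * |c| ≤ |a * b + a * c + b * c| + |a| * |b| := by
    rw [← abs_mul, ← abs_mul]
    have : (a + b) * c = (a * b + a * c + b * c) + -(a * b) := by ring
    rw [this]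
    calc |(a * b + a * c + b * c) + -(a * b)|
        ≤ |a * b + a * c + b * c| + |-(a * b)| := abs_add_le _ _
      _ = _ := by rw [abs_neg]
  have h3 : |a + b| = |a| + |b| ∨ |a + b| = |b| - |a| := by
    rcases abs_cases a with ⟨h1, h1'⟩ | ⟨h1, h1'⟩ <;>
    rcases abs_cases b with ⟨h2, h2'⟩ | ⟨h2, h2'⟩ <;>
    rcases abs_cases (a + b) with ⟨h3, h3'⟩ | ⟨h3, h3'⟩ <;>
    rw [h1, h2] at hab <;> rw [h1, h2, h3] <;> omega
  obtain ⟨e1, e2, e3, e4⟩ := core_eq |k| |a| |b| |c| |d| _ _ (abs_nonneg k) hA hab hbc hδ hs1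
    h1 h2 h3 hd
  have hq : |a| + 1 ≤ |a| * (|a| + 1) := by nlinarith
  rcases lt_or_gt_of_ne ha with hneg | hpos
  · -- `a < 0`
    have hm : |a| = -a := abs_of_neg hneg
    rw [hm] at e2 e4 hq hA ⊢
    have hb : b = -a + 1 := by
      rcases abs_cases b with ⟨h5, h5'⟩ | ⟨h5, h5'⟩
      · omega
      · rcases abs_cases (a + b) with ⟨h6, h6'⟩ | ⟨h6, h6'⟩ <;> omega
    have hD1 : a * b + a * c + b * c = -(-a * (-a + 1)) + c := by rw [hb]; ring
    rw [hD1] at e3
    set q := -a * (-a + 1) with hqd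
    have hc : c = q + 1 := by
      rcases abs_cases c with ⟨h5, h5'⟩ | ⟨h5, h5'⟩
      · omega
      · rcases abs_cases (-q + c) with ⟨h6, h6'⟩ | ⟨h6, h6'⟩ <;> omega
    have hd' : d = -k + q * (q + 1) := by
      have h5 : (a * b + a * c + b * c) * d + a * b * c = -k := by linear_combination h
      rw [hD1, hc] at h5
      have h6 : a * b * (q + 1) = -(q * (q + 1)) := by rw [hqd, hb]; ring
      rw [h6] at h5
      linarith
    rw [hm] at hd
    have hbd : bound k (-a) = q ^ 2 + q + |k| := rfl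
    rw [hbd] at hd ⊢
    have hQ : q * (q + 1) = q ^ 2 + q := by ring
    have hQ0 : 0 < q ^ 2 + q := by nlinarith
    rw [hQ] at hd'
    set Q := q ^ 2 + q with hQd
    have hk : k ≤ 0 := by
      rcases abs_cases d with ⟨h5, h5'⟩ | ⟨h5, h5'⟩ <;>
      rcases abs_cases k with ⟨h6, h6'⟩ | ⟨h6, h6'⟩ <;> omega
    refine ⟨-1, Or.inr rfl, by linarith, by ring, ?_, ?_, ?_⟩
    · rw [hb]; ring
    · rw [hc]; ring
    · rw [hd', abs_of_nonpos hk]; ring
  · -- `0 < a`
    have hm : |a| = a := abs_of_pos hpos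
    rw [hm] at e2 e4 hq hA ⊢
    have hb : b = -(a + 1) := by
      rcases abs_cases b with ⟨h5, h5'⟩ | ⟨h5, h5'⟩
      · rcases abs_cases (a + b) with ⟨h6, h6'⟩ | ⟨h6, h6'⟩ <;> omega
      · omega
    have hD1 : a * b + a * c + b * c = -(a * (a + 1)) - c := by rw [hb]; ring
    rw [hD1] at e3
    set q := a * (a + 1) with hqd
    have hc : c = -(q + 1) := by
      rcases abs_cases c with ⟨h5, h5'⟩ | ⟨h5, h5'⟩
      · rcases abs_cases (-q - c) with ⟨h6, h6'⟩ | ⟨h6, h6'⟩ <;> omega
      · omega
    have hd' : d = -k - q * (q + 1) := by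
      have h5 : (a * b + a * c + b * c) * d + a * b * c = -k := by linear_combination h
      rw [hD1, hc] at h5
      have h6 : a * b * -(q + 1) = q * (q + 1) := by rw [hqd, hb]; ring
      rw [h6] at h5
      linarith
    rw [hm] at hd
    have hbd : bound k a = q ^ 2 + q + |k| := rfl
    rw [hbd] at hd ⊢
    have hQ : q * (q + 1) = q ^ 2 + q := by ring
    have hQ0 : 0 < q ^ 2 + q := by nlinarith
    rw [hQ] at hd'
    set Q := q ^ 2 + q with hQd
    have hk : 0 ≤ k := by
      rcases abs_cases d with ⟨h5, h5'⟩ | ⟨h5, h5'⟩ <;>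
      rcases abs_cases k with ⟨h6, h6'⟩ | ⟨h6, h6'⟩ <;> omega
    refine ⟨1, Or.inl rfl, by linarith, by ring, ?_, ?_, ?_⟩
    · rw [hb]; ring
    · rw [hc]; ring
    · rw [hd', abs_of_nonneg hk]; ring

/-- Sorting four integers by absolute value. -/
lemma exists_sorted (w x y z : ℤ) : ∃ a b c d : ℤ, List.Perm [w, x, y, z] [a, b, c, d] ∧
    |a| ≤ |b| ∧ |b| ≤ |c| ∧ |c| ≤ |d| := by
  set l := [w, x, y, z].insertionSort (fun u v : ℤ => |u| ≤ |v|) with hl
  have hp : List.Perm l [w, x, y, z] := List.perm_insertionSort _ _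
  have hlen : l.length = 4 := by rw [hp.length_eq]; rfl
  have : Std.Total (fun u v : ℤ => |u| ≤ |v|) := ⟨fun u v => le_total |u| |v|⟩
  have : IsTrans ℤ (fun u v : ℤ => |u| ≤ |v|) := ⟨fun u v w h1 h2 => le_trans h1 h2⟩
  have hs : l.Pairwise (fun u v : ℤ => |u| ≤ |v|) := List.pairwise_insertionSort _ _
  match hm : l, hlen with
  | [a, b, c, d], _ =>
    refine ⟨a, b, c, d, hp.symm, ?_, ?_, ?_⟩
    · simp at hs; tauto
    · simp at hs; tauto
    · simp at hs; tauto

/-- The polynomial form of the equation. -/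
lemma eq_iff (k w x y z : ℤ) (hw : w ≠ 0) (hx : x ≠ 0) (hy : y ≠ 0) (hz : z ≠ 0) :
    IsSolution k w x y z ↔ x * y * z + w * y * z + w * x * z + w * x * y = -k := by
  unfold IsSolution
  have hw' : (w : ℚ) ≠ 0 := by exact_mod_cast hw
  have hx' : (x : ℚ) ≠ 0 := by exact_mod_cast hx
  have hy' : (y : ℚ) ≠ 0 := by exact_mod_cast hy
  have hz' : (z : ℚ) ≠ 0 := by exact_mod_cast hz
  have h : 1 / (w : ℚ) + 1 / (x : ℚ) + 1 / (y : ℚ) + 1 / (z : ℚ)
        + (k : ℚ) / ((w : ℚ) * x * y * z)
      = ((x : ℚ) * y * z + w * y * z + w * x * z + w * x * y + k) / (w * x * y * z) := by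
    field_simp
  rw [h, div_eq_zero_iff]
  constructor
  · rintro (h1 | h1)
    · have h2 : x * y * z + w * y * z + w * x * z + w * x * y + k = 0 := by exact_mod_cast h1
      linarith
    · exfalso
      simp [hw', hx', hy', hz'] at h1
  · intro h1
    left
    have h2 : x * y * z + w * y * z + w * x * z + w * x * y + k = 0 := by linarith
    exact_mod_cast h2

lemma family_or_bound (k w x y z : ℤ) (hw : w ≠ 0) (hx : x ≠ 0) (hy : y ≠ 0) (hz : z ≠ 0)
    (h : x * y * z + w * y * z + w * x * z + w * x * y = -k) :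
    FamilyOne k w x y z ∨ FamilyTwo k w x y z ∨
      (|x| ≤ bound k |w| ∧ |y| ≤ bound k |w| ∧ |z| ≤ bound k |w|) := by
  obtain ⟨a, b, c, d, hp, hab, hbc, hcd⟩ := exists_sorted w x y z
  have hm : (([w, x, y, z] : List ℤ) : Multiset ℤ) = (([a, b, c, d] : List ℤ) : Multiset ℤ) :=
    Multiset.coe_eq_coe.mpr hp
  have he : b * c * d + a * c * d + a * b * d + a * b * c = -k := by
    rw [← esymm_three_list, ← hm, esymm_three_list]
    linarith
  have hmem : ∀ v, v ∈ [w, x, y, z] → v ≠ 0 := by
    intro v hv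
    simp only [List.mem_cons, List.not_mem_nil, or_false] at hv
    rcases hv with rfl | rfl | rfl | rfl <;> assumption
  have hmem2 : ∀ v, v ∈ [w, x, y, z] → |a| ≤ |v| ∧ |v| ≤ |d| := by
    intro v hv
    have hv' : v ∈ [a, b, c, d] := hp.mem_iff.mp hv
    simp only [List.mem_cons, List.not_mem_nil, or_false] at hv'
    rcases hv' with rfl | rfl | rfl | rfl <;> constructor <;> omega
  have ha : a ≠ 0 := by
    apply hmem a
    exact hp.mem_iff.mpr (by simp)
  have hb : b ≠ 0 := by
    apply hmem b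
    exact hp.mem_iff.mpr (by simp)
  rcases sorted_case k a b c d ha hb hab hbc he with ⟨u, j, t, hk, ht⟩ | ⟨g, r, s, t, hk, ht⟩ | hb
  · exact Or.inl ⟨u, j, t, hk, hp.trans ht⟩
  · exact Or.inr (Or.inl ⟨g, r, s, t, hk, hp.trans ht⟩)
  · right; right
    have hw1 := hmem2 w (by simp)
    have hx1 := hmem2 x (by simp)
    have hy1 := hmem2 y (by simp)
    have hz1 := hmem2 z (by simp)
    have hbb : bound k |a| ≤ bound k |w| := bound_mono k (abs_nonneg a) hw1.1
    refine ⟨?_, ?_, ?_⟩ <;> linarith [hx1.2, hy1.2, hz1.2]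

lemma familyOne_sol (k w x y z : ℤ) (h : FamilyOne k w x y z) :
    x * y * z + w * y * z + w * x * z + w * x * y = -k := by
  obtain ⟨u, j, t, hk, ht⟩ := h
  have hm : (([w, x, y, z] : List ℤ) : Multiset ℤ) = (([u, -u, t, j - t] : List ℤ) : Multiset ℤ) :=
    Multiset.coe_eq_coe.mpr ht
  have h1 := esymm_three_list w x y z
  rw [hm, esymm_three_list] at h1
  linear_combination -h1 + hk

lemma familyTwo_sol (k w x y z : ℤ) (h : FamilyTwo k w x y z) :
    x * y * z + w * y * z + w * x * z + w * x * y = -k := by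
  obtain ⟨g, r, s, t, hk, ht⟩ := h
  have hm : (([w, x, y, z] : List ℤ) : Multiset ℤ)
      = (([g * r * (r + s), g * s * (r + s), -(g * r * s), t] : List ℤ) : Multiset ℤ) :=
    Multiset.coe_eq_coe.mpr ht
  have h1 := esymm_three_list w x y z
  rw [hm, esymm_three_list] at h1
  linear_combination -h1 + hk

/-- In the second family three of the entries have vanishing second elementary symmetric
function. -/
lemma familyTwo_quad (k w x y z : ℤ) (h : FamilyTwo k w x y z) :
    x * y + y * z + z * x = 0 ∨ w * y + y * z + z * w = 0 ∨ w * x + x * z + z * w = 0 ∨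
      w * x + x * y + y * w = 0 := by
  obtain ⟨g, r, s, t, -, ht⟩ := h
  have h1 := ht.sum_eq
  have h2 := (ht.map (fun v : ℤ => v ^ 2)).sum_eq
  have h3 : t ∈ [w, x, y, z] := ht.mem_iff.mpr (by simp)
  simp only [List.sum_cons, List.sum_nil, List.map_cons, List.map_nil, add_zero] at h1 h2
  simp only [List.mem_cons, List.not_mem_nil, or_false] at h3
  have key : ∀ a b c : ℤ, a + b + c = g * r * (r + s) + g * s * (r + s) + -(g * r * s) →
      a ^ 2 + b ^ 2 + c ^ 2 = (g * r * (r + s)) ^ 2 + (g * s * (r + s)) ^ 2 + (-(g * r * s)) ^ 2 →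
      a * b + b * c + c * a = 0 := by
    intro a b c h4 h5
    have h6 : 2 * (a * b + b * c + c * a) = 0 := by
      linear_combination (a + b + c + (g * r * (r + s) + g * s * (r + s) + -(g * r * s))) * h4 - h5
    linarith
  rcases h3 with h3 | h3 | h3 | h3
  · left
    subst h3
    exact key x y z (by linarith) (by linarith)
  · right; left
    subst h3
    exact key w y z (by linarith) (by linarith)
  · right; right; left
    subst h3
    exact key w x z (by linarith) (by linarith)
  · right; right; right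
    subst h3
    exact key w x y (by linarith) (by linarith)

/-- The second family is empty unless `4` divides `k`. -/
lemma familyTwo_dvd (k w x y z : ℤ) (h : FamilyTwo k w x y z) : 4 ∣ k := by
  obtain ⟨g, r, s, t, hk, -⟩ := h
  have h1 : Even (r * s * (r + s)) := by
    rcases Int.even_or_odd r with h | h
    · exact (h.mul_right s).mul_right _
    · rcases Int.even_or_odd s with h' | h'
      · exact (h'.mul_left r).mul_right _
      · exact (h.add_odd h').mul_left _
  obtain ⟨n, hn⟩ := h1
  refine ⟨g ^ 3 * n ^ 2, ?_⟩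
  rw [hk, hn]
  ring

/-- The extremal solutions. -/
lemma extremal (k m e : ℤ) (hm : 1 ≤ m) (he : (e = 1 ∧ 0 ≤ k) ∨ (e = -1 ∧ k ≤ 0)) :
    IsSolution k (e * m) (-e * (m + 1)) (-e * (m * (m + 1) + 1)) (-e * bound k m) ∧
      ¬ FamilyOne k (e * m) (-e * (m + 1)) (-e * (m * (m + 1) + 1)) (-e * bound k m) ∧
      ¬ FamilyTwo k (e * m) (-e * (m + 1)) (-e * (m * (m + 1) + 1)) (-e * bound k m) := by
  have hq : m + 1 ≤ m * (m + 1) := by nlinarith
  have hk0 : 0 ≤ |k| := abs_nonneg k
  have hb : m * (m + 1) + 2 ≤ bound k m := by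
    unfold bound
    nlinarith [sq_nonneg (m * (m + 1))]
  have hb' : bound k m = (m * (m + 1)) ^ 2 + m * (m + 1) + |k| := rfl
  set q := m * (m + 1) with hqd
  set b := bound k m with hbd
  have he0 : e ≠ 0 := by rcases he with ⟨rfl, _⟩ | ⟨rfl, _⟩ <;> norm_num
  have he2 : e * e = 1 := by rcases he with ⟨rfl, _⟩ | ⟨rfl, _⟩ <;> norm_num
  have hek : e * |k| = k := by
    rcases he with ⟨rfl, h⟩ | ⟨rfl, h⟩
    · rw [abs_of_nonneg h, one_mul]
    · rw [abs_of_nonpos h]; ring
  have hne : -e ≠ 0 := neg_ne_zero.mpr he0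
  refine ⟨?_, ?_, ?_⟩
  · rw [eq_iff k _ _ _ _ (mul_ne_zero he0 (by omega)) (mul_ne_zero hne (by omega))
      (mul_ne_zero hne (by omega)) (mul_ne_zero hne (by omega))]
    have h1 : (-e * (m + 1)) * (-e * (q + 1)) * (-e * b) + (e * m) * (-e * (q + 1)) * (-e * b)
        + (e * m) * (-e * (m + 1)) * (-e * b) + (e * m) * (-e * (m + 1)) * (-e * (q + 1))
        = (e * e) * e * (-((m + 1) * (q + 1) * b) + m * (q + 1) * b + m * (m + 1) * b
          + m * (m + 1) * (q + 1)) := by ring
    rw [h1, he2, one_mul, ← hqd, hb']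
    have h2 : -((m + 1) * (q + 1) * (q ^ 2 + q + |k|)) + m * (q + 1) * (q ^ 2 + q + |k|)
        + q * (q ^ 2 + q + |k|) + q * (q + 1) = -|k| := by ring
    rw [h2]
    linarith
  · rintro ⟨u, j, t, -, ht⟩
    have h1 : u ∈ [e * m, -e * (m + 1), -e * (q + 1), -e * b] := ht.mem_iff.mpr (by simp)
    have h2 : -u ∈ [e * m, -e * (m + 1), -e * (q + 1), -e * b] := ht.mem_iff.mpr (by simp)
    simp only [List.mem_cons, List.not_mem_nil, or_false] at h1 h2
    rcases he with ⟨rfl, _⟩ | ⟨rfl, _⟩ <;>
    rcases h1 with h1 | h1 | h1 | h1 <;> rcases h2 with h2 | h2 | h2 | h2 <;> omega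
  · intro h
    have hb2 : q ^ 2 + q ≤ b := by rw [hb']; linarith
    have hq1 : 2 ≤ q := by linarith
    rcases familyTwo_quad _ _ _ _ _ h with h | h | h | h
    · have h1 : (e * e) * ((m + 1) * (q + 1) + (q + 1) * b + b * (m + 1)) = 0 := by
        linear_combination h
      rw [he2, one_mul] at h1
      have h2 : 0 < (m + 1) * (q + 1) := by positivity
      have h3 : 0 < (q + 1) * b := mul_pos (by linarith) (by linarith)
      have h4 : 0 < b * (m + 1) := mul_pos (by linarith) (by linarith)
      linarith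
    · have h1 : (e * e) * (-(m * (q + 1)) + (q + 1) * b - b * m) = 0 := by
        linear_combination h
      rw [he2, one_mul] at h1
      nlinarith
    · have h1 : (e * e) * (-(m * (m + 1)) + (m + 1) * b - b * m) = 0 := by
        linear_combination h
      rw [he2, one_mul] at h1
      have h2 : b = q := by linarith
      linarith
    · have h1 : (e * e) * (-(m * (m + 1)) + (m + 1) * (q + 1) - (q + 1) * m) = 0 := by
        linear_combination h
      rw [he2, one_mul] at h1
      have h2 : (m + 1) * (q + 1) - (q + 1) * m = q + 1 := by ring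
      linarith

lemma bound_lt (k : ℤ) {a b : ℤ} (ha : 0 ≤ a) (hab : a < b) : bound k a < bound k b := by
  unfold bound
  have h : a * (a + 1) < b * (b + 1) := by nlinarith
  have h0 : 0 ≤ a * (a + 1) := by positivity
  have h2 : (a * (a + 1)) ^ 2 ≤ (b * (b + 1)) ^ 2 := pow_le_pow_left₀ h0 h.le 2
  linarith

/-- The extremal solutions are the ones of `extremal`. -/
lemma extremal_unique (k m w x y z : ℤ) (hm : 1 ≤ m) (hwm : |w| = m) (hx : x ≠ 0) (hy : y ≠ 0)
    (hz : z ≠ 0) (h : x * y * z + w * y * z + w * x * z + w * x * y = -k)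
    (hF : ¬ FamilyOne k w x y z) (hG : ¬ FamilyTwo k w x y z) (hzb : |z| = bound k m) :
    ∃ e : ℤ, (e = 1 ∨ e = -1) ∧ 0 ≤ e * k ∧ w = e * m ∧ z = -e * bound k m ∧
      ((x = -e * (m + 1) ∧ y = -e * (m * (m + 1) + 1)) ∨
        (y = -e * (m + 1) ∧ x = -e * (m * (m + 1) + 1))) := by
  have hw : w ≠ 0 := by
    rintro rfl
    simp at hwm
    omega
  obtain ⟨a, b, c, d, hp, hab, hbc, hcd⟩ := exists_sorted w x y z
  have hmm : (([w, x, y, z] : List ℤ) : Multiset ℤ) = (([a, b, c, d] : List ℤ) : Multiset ℤ) :=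
    Multiset.coe_eq_coe.mpr hp
  have he : b * c * d + a * c * d + a * b * d + a * b * c = -k := by
    rw [← esymm_three_list, ← hmm, esymm_three_list]
    linarith
  have hmem : ∀ v, v ∈ [w, x, y, z] → v ≠ 0 := by
    intro v hv
    simp only [List.mem_cons, List.not_mem_nil, or_false] at hv
    rcases hv with rfl | rfl | rfl | rfl <;> assumption
  have hmem1 : ∀ v, v ∈ [w, x, y, z] → v = a ∨ v = b ∨ v = c ∨ v = d := by
    intro v hv
    have hv' : v ∈ [a, b, c, d] := hp.mem_iff.mp hv
    simpa only [List.mem_cons, List.not_mem_nil, or_false] using hv'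
  have ha : a ≠ 0 := hmem a (hp.mem_iff.mpr (by simp))
  have hb : b ≠ 0 := hmem b (hp.mem_iff.mpr (by simp))
  have hw1 := hmem1 w (by simp)
  have hz1 := hmem1 z (by simp)
  have haw : |a| ≤ |w| := by
    rcases hw1 with rfl | rfl | rfl | rfl <;> omega
  have hzd : |z| ≤ |d| := by
    rcases hz1 with rfl | rfl | rfl | rfl <;> omega
  have hF' : ¬ FamilyOne k a b c d := by
    rintro ⟨u, j, t, hk, ht⟩
    exact hF ⟨u, j, t, hk, hp.trans ht⟩
  have hG' : ¬ FamilyTwo k a b c d := by
    rintro ⟨g, r, s, t, hk, ht⟩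
    exact hG ⟨g, r, s, t, hk, hp.trans ht⟩
  have hda : |d| ≤ bound k |a| := by
    rcases sorted_case k a b c d ha hb hab hbc he with h1 | h1 | h1
    · exact absurd h1 hF'
    · exact absurd h1 hG'
    · exact h1
  have ham : |a| = m := by
    by_contra hne
    have h1 : |a| < m := lt_of_le_of_ne (by linarith) hne
    have h2 := bound_lt k (abs_nonneg a) h1
    linarith
  have hdb : |d| = bound k |a| := by
    rw [ham] at hda ⊢
    linarith
  obtain ⟨e, he1, hek, h1, h2, h3, h4⟩ := sorted_eq k a b c d ha hb hab hbc he hF' hG' hdb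
  rw [ham] at h1 h2 h3 h4
  have hq : m + 1 ≤ m * (m + 1) := by nlinarith
  have hB : m * (m + 1) + 2 ≤ bound k m := by
    unfold bound
    nlinarith [sq_nonneg (m * (m + 1)), abs_nonneg k]
  have s1 := hp.sum_eq
  have s2 := (hp.map (fun v : ℤ => v ^ 2)).sum_eq
  simp only [List.sum_cons, List.sum_nil, List.map_cons, List.map_nil, add_zero] at s1 s2
  set q := m * (m + 1) with hqd
  set B := bound k m with hBd
  have hwa : w = a := by
    rcases he1 with rfl | rfl <;> rcases hw1 with hw1 | hw1 | hw1 | hw1 <;>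
      rcases abs_cases w with ⟨h5, h5'⟩ | ⟨h5, h5'⟩ <;> omega
  have hzd' : z = d := by
    rcases he1 with rfl | rfl <;> rcases hz1 with hz1 | hz1 | hz1 | hz1 <;>
      rcases abs_cases z with ⟨h5, h5'⟩ | ⟨h5, h5'⟩ <;> omega
  have s3 : x + y = b + c := by rw [hwa, hzd'] at s1; linarith
  have s4 : x ^ 2 + y ^ 2 = b ^ 2 + c ^ 2 := by rw [hwa, hzd'] at s2; linarith
  have s5 : (x - b) * (x - c) = 0 := by
    have hy' : y = b + c - x := by linarith
    rw [hy'] at s4
    have : 2 * ((x - b) * (x - c)) = 0 := by linear_combination s4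
    linarith
  refine ⟨e, he1, hek, by rw [hwa, h1], by rw [hzd', h4], ?_⟩
  rcases mul_eq_zero.mp s5 with h5 | h5
  · left
    refine ⟨by linarith, by linarith⟩
  · right
    refine ⟨by linarith, by linarith⟩

lemma familyOne_swap (k w x y z : ℤ) (h : FamilyOne k w y x z) : FamilyOne k w x y z := by
  obtain ⟨u, j, t, hk, ht⟩ := h
  exact ⟨u, j, t, hk, ((List.Perm.swap y x [z]).cons w).trans ht⟩

lemma familyTwo_swap (k w x y z : ℤ) (h : FamilyTwo k w y x z) : FamilyTwo k w x y z := by
  obtain ⟨g, r, s, t, hk, ht⟩ := h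
  exact ⟨g, r, s, t, hk, ((List.Perm.swap y x [z]).cons w).trans ht⟩

/-- **All solutions, for every numerator `k`.**

(1) A quadruple of nonzero integers is a solution of `1/w + 1/x + 1/y + 1/z + k/(wxyz) = 0` iff
it is a permutation of `(u, -u, t, j - t)` with `k = u ^ 2 j`, or a permutation of
`(g r (r + s), g s (r + s), - g r s, t)` with `k = g ^ 3 (r s (r + s)) ^ 2`, or `w + x ≠ 0`,
the numbers `x, y, z` are bounded in absolute value by `bound k |w| = q ^ 2 + q + |k|` with
`q = |w| (|w| + 1)`, and `(w + x) y + w x`, `(w + x) z + w x` are complementary divisors of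
`(w x) ^ 2 - k (w + x)`.

(2) The bound is attained for all `k` and all `m = |w| ≥ 1`, and the solutions outside the two
families which attain it are, up to the order, only
`e (m, -(m + 1), -(q + 1), -(q ^ 2 + q + |k|))`, where `e = 1, -1` and `0 ≤ e k`.

(3) The second family is empty unless `4` divides `k`. For `k = 1` (Mordell's equation) the first
family consists of the permutations of `(1, -1, t, 1 - t)`. -/
theorem result :
    (∀ k w x y z : ℤ, w ≠ 0 → x ≠ 0 → y ≠ 0 → z ≠ 0 →
      (IsSolution k w x y z ↔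
        FamilyOne k w x y z ∨ FamilyTwo k w x y z ∨
          (w + x ≠ 0 ∧
            (∃ d e : ℤ, d * e = (w * x) ^ 2 - k * (w + x) ∧ (w + x) * y = d - w * x ∧
              (w + x) * z = e - w * x) ∧
            |x| ≤ bound k |w| ∧ |y| ≤ bound k |w| ∧ |z| ≤ bound k |w|))) ∧
    (∀ k m w x y z : ℤ, 1 ≤ m → |w| = m → x ≠ 0 → y ≠ 0 → z ≠ 0 →
      ((IsSolution k w x y z ∧ ¬ FamilyOne k w x y z ∧ ¬ FamilyTwo k w x y z ∧
          |z| = bound k m) ↔
        ∃ e : ℤ, (e = 1 ∨ e = -1) ∧ 0 ≤ e * k ∧ w = e * m ∧ z = -e * bound k m ∧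
          ((x = -e * (m + 1) ∧ y = -e * (m * (m + 1) + 1)) ∨
            (y = -e * (m + 1) ∧ x = -e * (m * (m + 1) + 1))))) ∧
    (∀ k w x y z : ℤ, FamilyTwo k w x y z → 4 ∣ k) ∧
    (∀ w x y z : ℤ, FamilyOne 1 w x y z ↔
      ∃ t : ℤ, List.Perm [w, x, y, z] [1, -1, t, 1 - t]) := by
  refine ⟨?_, ?_, familyTwo_dvd, ?_⟩
  · intro k w x y z hw hx hy hz
    rw [eq_iff k w x y z hw hx hy hz]
    constructor
    · intro h
      rcases family_or_bound k w x y z hw hx hy hz h with h1 | h1 | h1
      · exact Or.inl h1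
      · exact Or.inr (Or.inl h1)
      · by_cases hs : w + x = 0
        · left
          have hx' : x = -w := by linarith
          subst hx'
          refine ⟨w, y + z, y, by linear_combination h, ?_⟩
          have : y + z - y = z := by ring
          rw [this]
        · right; right
          refine ⟨hs, ⟨(w + x) * y + w * x, (w + x) * z + w * x, ?_, by ring, by ring⟩, h1⟩
          linear_combination (w + x) * h
    · rintro (h | h | ⟨hs, ⟨d, e, hde, hy', hz'⟩, -⟩)
      · exact familyOne_sol k w x y z h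
      · exact familyTwo_sol k w x y z h
      · have hd : d = (w + x) * y + w * x := by linarith
        have he : e = (w + x) * z + w * x := by linarith
        rw [hd, he] at hde
        have h1 : (w + x) * (x * y * z + w * y * z + w * x * z + w * x * y + k) = 0 := by
          linear_combination hde
        rcases mul_eq_zero.mp h1 with h2 | h2
        · exact absurd h2 hs
        · linarith
  · intro k m w x y z hm hwm hx hy hz
    have hw : w ≠ 0 := by
      rintro rfl
      simp at hwm
      omega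
    have hb : 1 ≤ bound k m := by
      unfold bound
      nlinarith [sq_nonneg (m * (m + 1)), abs_nonneg k]
    constructor
    · rintro ⟨h, hF, hG, hzb⟩
      exact extremal_unique k m w x y z hm hwm hx hy hz
        ((eq_iff k w x y z hw hx hy hz).mp h) hF hG hzb
    · rintro ⟨e, he, hek, hw', hz', hxy⟩
      have he' : (e = 1 ∧ 0 ≤ k) ∨ (e = -1 ∧ k ≤ 0) := by
        rcases he with rfl | rfl
        · exact Or.inl ⟨rfl, by linarith⟩
        · exact Or.inr ⟨rfl, by linarith⟩
      have hzb : |z| = bound k m := by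
        rw [hz', abs_mul, abs_of_nonneg (by omega : 0 ≤ bound k m)]
        rcases he with rfl | rfl <;> simp
      obtain ⟨h1, h2, h3⟩ := extremal k m e hm he'
      rcases hxy with ⟨hx', hy'⟩ | ⟨hy', hx'⟩
      · rw [← hw', ← hx', ← hy', ← hz'] at h1 h2 h3
        exact ⟨h1, h2, h3, hzb⟩
      · rw [← hw', ← hy', ← hx', ← hz'] at h1 h2 h3
        refine ⟨?_, fun h => h2 (familyOne_swap _ _ _ _ _ h),
          fun h => h3 (familyTwo_swap _ _ _ _ _ h), hzb⟩
        rw [eq_iff k w x y z hw hx hy hz]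
        rw [eq_iff k w y x z hw hy hx hz] at h1
        linarith
  · intro w x y z
    constructor
    · rintro ⟨u, j, t, hk, ht⟩
      have h1 : u * (u * j) = 1 := by linarith [hk, (by ring : u * (u * j) = u ^ 2 * j)]
      rcases Int.eq_one_or_neg_one_of_mul_eq_one h1 with rfl | rfl
      · have : j = 1 := by linarith
        subst this
        exact ⟨t, ht⟩
      · have : j = 1 := by linarith
        subst this
        exact ⟨t, ht.trans (List.Perm.swap _ _ _)⟩
    · rintro ⟨t, ht⟩
      exact ⟨1, 1, t, by ring, ht⟩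

end Pool.Agent.Results.MP_d45172_nt.AllNumerators
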